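import Mathlib

/-!
# A tetrahedron violating the Heron-type lower bound for `V_2`

`K = {x ∈ ℝ³ : x_i ≥ -1/40, x_1 + x_2 + x_3 ≤ 37/40}` is a convex body with `o` in its interior
for which `V_2(K)^2 < (1/16)(∑ ℓ_i²)² - (1/8)∑ ℓ_i⁴`.
-/

namespace Pool.Agent.Results.MP_6df474_gt.Tetrahedron

open MeasureTheory MeasureTheory.Measure Set

/-- Euclidean space `ℝ^n`. -/
abbrev E (n : ℕ) := EuclideanSpace ℝ (Fin n)

/-- `V_2(K)`, half the surface area of a convex body `K ⊂ ℝ³`; `μHE[2]` is the two-dimensional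
Hausdorff measure normalised to agree with Lebesgue measure on planes. -/
noncomputable def V2 (K : Set (E 3)) : ℝ := (μHE[2] (frontier K)).toReal / 2

/-- `V_1(L)` of a compact convex planar set: half the perimeter if `L` has interior points, and
the length of `L` if it does not (`L` is then a segment, a point or empty). -/
noncomputable def V1 (L : Set (E 2)) : ℝ :=
  open Classical in
  if (interior L).Nonempty then (μHE[1] (frontier L)).toReal / 2 else (μHE[1] L).toReal

/-- The isometric inclusion of `ℝ²` onto the coordinate plane `e_i^⊥` of `ℝ³`. -/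
def incl (i : Fin 3) (p : E 2) : E 3 := WithLp.toLp 2 (i.insertNth (α := fun _ => ℝ) 0 p)

/-- `ℓ_i(K) = V_1(K ∩ e_i^⊥)`. -/
noncomputable def ell (K : Set (E 3)) (i : Fin 3) : ℝ := V1 (incl i ⁻¹' K)

/-- The coordinate simplex with corner `(c,c,c)` and legs `s`. -/
def simp3 (c s : ℝ) : Set (E 3) := {x | (∀ i, c ≤ x i) ∧ x 0 + x 1 + x 2 ≤ 3 * c + s}

/-- The right isosceles triangle with corner `(c,c)` and legs `s`. -/
def tri (c s : ℝ) : Set (E 2) := {p | c ≤ p 0 ∧ c ≤ p 1 ∧ p 0 + p 1 ≤ 2 * c + s}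

lemma incl_same (i : Fin 3) (p : E 2) : incl i p i = 0 := by
  simp [incl]

lemma incl_succAbove (i : Fin 3) (p : E 2) (j : Fin 2) : incl i p (i.succAbove j) = p j := by
  simp [incl]

lemma incl_sum (i : Fin 3) (p : E 2) : incl i p 0 + incl i p 1 + incl i p 2 = p 0 + p 1 := by
  have h := Fin.sum_univ_succAbove (fun j => incl i p j) i
  rw [Fin.sum_univ_three, incl_same] at h
  rw [h]
  simp only [incl_succAbove, Fin.sum_univ_two, zero_add]

lemma incl_isometry (i : Fin 3) : Isometry (incl i) := by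
  apply Isometry.of_dist_eq
  intro p q
  rw [EuclideanSpace.dist_eq, EuclideanSpace.dist_eq]
  congr 1
  rw [Fin.sum_univ_succAbove _ i]
  simp [incl_same, incl_succAbove]

/-! ### Area of the triangle -/

lemma vol_tri_prod : volume {q : ℝ × ℝ | 0 ≤ q.1 ∧ 0 ≤ q.2 ∧ q.1 + q.2 ≤ 1}
    = ENNReal.ofReal (1 / 2) := by
  have hmeas : MeasurableSet {q : ℝ × ℝ | 0 ≤ q.1 ∧ 0 ≤ q.2 ∧ q.1 + q.2 ≤ 1} := by
    apply IsClosed.measurableSet
    apply IsClosed.and (isClosed_le continuous_const continuous_fst)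
    apply IsClosed.and (isClosed_le continuous_const continuous_snd)
    exact isClosed_le (continuous_fst.add continuous_snd) continuous_const
  rw [Measure.volume_eq_prod, Measure.prod_apply hmeas]
  have h1 : ∀ x : ℝ, volume (Prod.mk x ⁻¹' {q : ℝ × ℝ | 0 ≤ q.1 ∧ 0 ≤ q.2 ∧ q.1 + q.2 ≤ 1})
      = (Icc (0 : ℝ) 1).indicator (fun x => ENNReal.ofReal (1 - x)) x := by
    intro x
    by_cases hx : 0 ≤ x
    · have h2 : Prod.mk x ⁻¹' {q : ℝ × ℝ | 0 ≤ q.1 ∧ 0 ≤ q.2 ∧ q.1 + q.2 ≤ 1} = Icc 0 (1 - x) := by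
        ext y
        simp only [mem_preimage, mem_ofPred_eq, mem_Icc]
        constructor
        · rintro ⟨_, h, h'⟩; exact ⟨h, by linarith⟩
        · rintro ⟨h, h'⟩; exact ⟨hx, h, by linarith⟩
      rw [h2, Real.volume_Icc]
      by_cases hx1 : x ≤ 1
      · rw [indicator_of_mem (show x ∈ Icc (0 : ℝ) 1 from ⟨hx, hx1⟩)]
        simp
      · rw [indicator_of_notMem (fun h => hx1 h.2)]
        rw [ENNReal.ofReal_eq_zero]
        linarith [not_le.mp hx1]
    · have h2 : Prod.mk x ⁻¹' {q : ℝ × ℝ | 0 ≤ q.1 ∧ 0 ≤ q.2 ∧ q.1 + q.2 ≤ 1} = ∅ := by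
        ext y
        simp [hx]
      rw [h2, measure_empty, indicator_of_notMem (fun h => hx h.1)]
  simp_rw [h1]
  rw [lintegral_indicator measurableSet_Icc, ← ofReal_integral_eq_lintegral_ofReal]
  · congr 1
    rw [integral_Icc_eq_integral_Ioc, ← intervalIntegral.integral_of_le zero_le_one]
    rw [intervalIntegral.integral_sub (continuous_const.intervalIntegrable _ _)
      (continuous_id'.intervalIntegrable _ _)]
    simp only [intervalIntegral.integral_const, integral_id]
    norm_num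
  · apply ContinuousOn.integrableOn_Icc
    fun_prop
  · rw [Filter.EventuallyLE, ae_restrict_iff' measurableSet_Icc]
    exact Filter.Eventually.of_forall fun x hx => by
      simp only [Pi.zero_apply]; linarith [hx.2]

lemma vol_tri : volume (tri 0 1) = ENNReal.ofReal (1 / 2) := by
  have h1 : MeasurePreserving (MeasurableEquiv.toLp 2 (Fin 2 → ℝ)).symm
      (volume : Measure (E 2)) volume :=
    EuclideanSpace.volume_preserving_symm_measurableEquiv_toLp (Fin 2)
  have h2 := volume_preserving_finTwoArrow ℝ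
  rw [← vol_tri_prod, ← h2.measure_preimage_equiv, ← h1.measure_preimage_equiv]
  congr 1
  ext p
  simp [tri, MeasurableEquiv.finTwoArrow]

lemma isClosed_tri (c s : ℝ) : IsClosed (tri c s) := by
  unfold tri
  apply IsClosed.and (isClosed_le continuous_const (by fun_prop))
  apply IsClosed.and (isClosed_le continuous_const (by fun_prop))
  exact isClosed_le (by fun_prop) continuous_const

/-! ### The boundary of the triangle -/

/-- A unit-speed segment. -/
def seg (a u : E 2) (l : ℝ) : Set (E 2) := (fun t : ℝ => a + t • u) '' Icc 0 l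

lemma measure_seg (a u : E 2) (hu : ‖u‖ = 1) (l : ℝ) : μHE[1] (seg a u l) = ENNReal.ofReal l := by
  have h1 : Isometry (fun t : ℝ => a + t • u) := by
    apply Isometry.of_dist_eq
    intro s t
    rw [dist_add_left, dist_eq_norm, ← sub_smul, norm_smul, hu, mul_one, Real.dist_eq,
      Real.norm_eq_abs]
  unfold seg
  rw [h1.euclideanHausdorffMeasure_image]
  have h2 := InnerProductSpace.euclideanHausdorffMeasure_eq_volume (V := ℝ)
  rw [Module.finrank_self] at h2
  rw [h2, Real.volume_Icc, sub_zero]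

lemma measurable_seg (a u : E 2) (l : ℝ) : MeasurableSet (seg a u l) := by
  apply IsCompact.measurableSet
  apply isCompact_Icc.image
  fun_prop

/-- Corner. -/
noncomputable def pt (x y : ℝ) : E 2 := WithLp.toLp 2 ![x, y]

@[simp] lemma pt_zero (x y : ℝ) : pt x y 0 = x := rfl
@[simp] lemma pt_one (x y : ℝ) : pt x y 1 = y := rfl

lemma ext_pt {p q : E 2} (h0 : p 0 = q 0) (h1 : p 1 = q 1) : p = q := by
  ext i; fin_cases i
  · exact h0
  · exact h1

lemma norm_pt (x y : ℝ) (h : x ^ 2 + y ^ 2 = 1) : ‖pt x y‖ = 1 := by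
  rw [EuclideanSpace.norm_eq, Fin.sum_univ_two, pt_zero, pt_one]
  simp [h]

/-- The bottom side. -/
noncomputable def s1 (c s : ℝ) : Set (E 2) := seg (pt c c) (pt 1 0) s
/-- The left side. -/
noncomputable def s2 (c s : ℝ) : Set (E 2) := seg (pt c c) (pt 0 1) s
/-- The hypotenuse. -/
noncomputable def s3 (c s : ℝ) : Set (E 2) :=
  seg (pt c (c + s)) (pt (Real.sqrt 2)⁻¹ (-(Real.sqrt 2)⁻¹)) (Real.sqrt 2 * s)

lemma mem_s1 {c s : ℝ} {p : E 2} : p ∈ s1 c s ↔ p 1 = c ∧ c ≤ p 0 ∧ p 0 ≤ c + s := by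
  constructor
  · rintro ⟨t, ⟨h0, h1⟩, rfl⟩
    simp [pt]
    exact ⟨h0, h1⟩
  · rintro ⟨h1, h2, h3⟩
    refine ⟨p 0 - c, ⟨by linarith, by linarith⟩, ?_⟩
    apply ext_pt
    · simp [pt]
    · simp [pt, h1]

lemma mem_s2 {c s : ℝ} {p : E 2} : p ∈ s2 c s ↔ p 0 = c ∧ c ≤ p 1 ∧ p 1 ≤ c + s := by
  constructor
  · rintro ⟨t, ⟨h0, h1⟩, rfl⟩
    simp [pt]
    exact ⟨h0, h1⟩
  · rintro ⟨h1, h2, h3⟩
    refine ⟨p 1 - c, ⟨by linarith, by linarith⟩, ?_⟩
    apply ext_pt
    · simp [pt, h1]
    · simp [pt]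

lemma mem_s3 {c s : ℝ} {p : E 2} :
    p ∈ s3 c s ↔ p 0 + p 1 = 2 * c + s ∧ c ≤ p 0 ∧ p 0 ≤ c + s := by
  have hpos : 0 < Real.sqrt 2 := by positivity
  constructor
  · rintro ⟨t, ⟨h0, h1⟩, rfl⟩
    simp only [PiLp.add_apply, PiLp.smul_apply, smul_eq_mul, pt_zero, pt_one]
    refine ⟨by ring, ?_, ?_⟩
    · have : 0 ≤ t * (Real.sqrt 2)⁻¹ := by positivity
      linarith
    · have : t * (Real.sqrt 2)⁻¹ ≤ s := by
        rw [mul_inv_le_iff₀ hpos]
        linarith
      linarith
  · rintro ⟨h1, h2, h3⟩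
    refine ⟨Real.sqrt 2 * (p 0 - c), ⟨mul_nonneg hpos.le (by linarith),
      mul_le_mul_of_nonneg_left (by linarith) hpos.le⟩, ?_⟩
    apply ext_pt
    · simp only [PiLp.add_apply, PiLp.smul_apply, smul_eq_mul, pt_zero, pt_one]
      field_simp
      ring
    · simp only [PiLp.add_apply, PiLp.smul_apply, smul_eq_mul, pt_zero, pt_one]
      field_simp
      linarith

lemma interior_tri (c s : ℝ) :
    interior (tri c s) = {p | c < p 0 ∧ c < p 1 ∧ p 0 + p 1 < 2 * c + s} := by
  apply subset_antisymm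
  · intro p hp
    rw [mem_interior_iff_mem_nhds] at hp
    -- test along a line
    have key : ∀ u : E 2, ∃ ε : ℝ, 0 < ε ∧ p + ε • u ∈ tri c s := by
      intro u
      have hc : Filter.Tendsto (fun t : ℝ => p + t • u) (nhds 0) (nhds p) := by
        have : Continuous (fun t : ℝ => p + t • u) := by fun_prop
        simpa using this.tendsto 0
      have h1 := hc.eventually hp
      rw [Metric.eventually_nhds_iff] at h1
      obtain ⟨ε, hε, h⟩ := h1
      refine ⟨ε / 2, by linarith, h ?_⟩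
      rw [Real.dist_eq, sub_zero, abs_of_pos (by linarith)]
      linarith
    obtain ⟨ε, hε, h⟩ := key (pt (-1) 0)
    obtain ⟨ε', hε', h'⟩ := key (pt 0 (-1))
    obtain ⟨ε'', hε'', h''⟩ := key (pt 1 0)
    simp only [tri, mem_ofPred_eq, PiLp.add_apply, PiLp.smul_apply, smul_eq_mul,
      pt_zero, pt_one] at h h' h'' ⊢
    refine ⟨?_, ?_, ?_⟩
    · linarith [h.1]
    · linarith [h'.2.1]
    · linarith [h''.2.2]
  · apply interior_maximal
    · intro p hp
      exact ⟨hp.1.le, hp.2.1.le, hp.2.2.le⟩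
    · apply IsOpen.and (isOpen_lt continuous_const (by fun_prop))
      apply IsOpen.and (isOpen_lt continuous_const (by fun_prop))
      exact isOpen_lt (by fun_prop) continuous_const

lemma frontier_tri (c s : ℝ) : frontier (tri c s) = s1 c s ∪ s2 c s ∪ s3 c s := by
  rw [(isClosed_tri c s).frontier_eq, interior_tri]
  ext p
  simp only [mem_sdiff, mem_union, mem_s1, mem_s2, mem_s3, tri, mem_ofPred_eq, not_and, not_lt]
  constructor
  · rintro ⟨⟨h1, h2, h3⟩, h4⟩
    by_cases ha : p 0 = c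
    · left; right; exact ⟨ha, h2, by linarith⟩
    by_cases hb : p 1 = c
    · left; left; exact ⟨hb, h1, by linarith⟩
    right
    have := h4 (lt_of_le_of_ne h1 (Ne.symm ha)) (lt_of_le_of_ne h2 (Ne.symm hb))
    exact ⟨by linarith, h1, by linarith⟩
  · rintro ((⟨h1, h2, h3⟩ | ⟨h1, h2, h3⟩) | ⟨h1, h2, h3⟩)
    · exact ⟨⟨h2, h1.ge, by linarith⟩, fun _ h => absurd h (by linarith)⟩
    · exact ⟨⟨h1.ge, h2, by linarith⟩, fun h => absurd h (by linarith)⟩
    · exact ⟨⟨h2, by linarith, h1.le⟩, fun _ _ => h1.ge⟩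

lemma measure_singleton' (p : E 2) : (μHE[1] : Measure (E 2)) {p} = 0 := by
  rw [euclideanHausdorffMeasure_def, Measure.smul_apply]
  have : (μH[((1 : ℕ) : ℝ)] : Measure (E 2)) {p} = 0 := by
    have := nullSingletonClass_hausdorff (E 2) (d := ((1 : ℕ) : ℝ)) (by norm_num)
    exact measure_singleton p
  rw [this, smul_zero]

lemma perimeter_tri (c s : ℝ) (hs : 0 ≤ s) :
    μHE[1] (frontier (tri c s)) = ENNReal.ofReal ((2 + Real.sqrt 2) * s) := by
  rw [frontier_tri]
  have m1 : μHE[1] (s1 c s) = ENNReal.ofReal s := measure_seg _ _ (norm_pt _ _ (by norm_num)) _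
  have m2 : μHE[1] (s2 c s) = ENNReal.ofReal s := measure_seg _ _ (norm_pt _ _ (by norm_num)) _
  have m3 : μHE[1] (s3 c s) = ENNReal.ofReal (Real.sqrt 2 * s) := by
    apply measure_seg _ _ (norm_pt _ _ ?_)
    have : Real.sqrt 2 ^ 2 = 2 := Real.sq_sqrt (by norm_num)
    rw [neg_sq, inv_pow, this]
    norm_num
  have d12 : μHE[1] (s1 c s ∩ s2 c s) = 0 := by
    refine measure_mono_null (t := {pt c c}) ?_ (measure_singleton' _)
    rintro p ⟨h1, h2⟩
    rw [mem_s1] at h1
    rw [mem_s2] at h2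
    exact ext_pt h2.1 h1.1
  have d13 : μHE[1] ((s1 c s ∪ s2 c s) ∩ s3 c s) = 0 := by
    refine measure_mono_null (t := {pt (c + s) c} ∪ {pt c (c + s)}) ?_ ?_
    · rintro p ⟨h1 | h1, h2⟩
      · rw [mem_s1] at h1
        rw [mem_s3] at h2
        left
        exact ext_pt (by rw [pt_zero]; linarith) h1.1
      · rw [mem_s2] at h1
        rw [mem_s3] at h2
        right
        exact ext_pt h1.1 (by rw [pt_one]; linarith)
    · rw [measure_union_null_iff]
      exact ⟨measure_singleton' _, measure_singleton' _⟩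
  have ms2 : MeasurableSet (s2 c s) := measurable_seg _ _ _
  have ms3 : MeasurableSet (s3 c s) := measurable_seg _ _ _
  rw [measure_union₀ ms3.nullMeasurableSet d13,
    measure_union₀ ms2.nullMeasurableSet d12, m1, m2, m3,
    ← ENNReal.ofReal_add hs hs, ← ENNReal.ofReal_add (by positivity) (by positivity)]
  congr 1
  ring

lemma V1_tri (c s : ℝ) (hs : 0 < s) : V1 (tri c s) = (2 + Real.sqrt 2) * s / 2 := by
  unfold V1
  have h : (interior (tri c s)).Nonempty := by
    rw [interior_tri]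
    refine ⟨pt (c + s / 4) (c + s / 4), ?_⟩
    simp only [mem_ofPred_eq, pt_zero, pt_one]
    refine ⟨by linarith, by linarith, by linarith⟩
  rw [if_pos h, perimeter_tri c s hs.le, ENNReal.toReal_ofReal (by positivity)]

/-! ### The surface of the tetrahedron -/

lemma ell_simp3 (c s : ℝ) (hc : c ≤ 0) (hs : 0 < s + c) (i : Fin 3) :
    ell (simp3 c s) i = (2 + Real.sqrt 2) * (s + c) / 2 := by
  unfold ell
  have h : incl i ⁻¹' simp3 c s = tri c (s + c) := by
    ext p
    simp only [simp3, tri, mem_preimage, mem_ofPred_eq, incl_sum]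
    constructor
    · rintro ⟨h1, h2⟩
      refine ⟨?_, ?_, by linarith⟩
      · have := h1 (i.succAbove 0); rwa [incl_succAbove] at this
      · have := h1 (i.succAbove 1); rwa [incl_succAbove] at this
    · rintro ⟨h1, h2, h3⟩
      refine ⟨?_, by linarith⟩
      intro j
      rcases Fin.eq_self_or_eq_succAbove i j with rfl | ⟨k, rfl⟩
      · rw [incl_same]; exact hc
      · rw [incl_succAbove]
        fin_cases k
        · exact h1
        · exact h2
  rw [h, V1_tri c (s + c) hs]

/-- The point `(c,c,c)`. -/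
noncomputable def cc (c : ℝ) : E 3 := WithLp.toLp 2 (fun _ => c)

/-- The linear map whose image of the right triangle is the slanted facet. -/
noncomputable def ψ : E 2 →ₗ[ℝ] E 3 where
  toFun p := WithLp.toLp 2 ![-p 0 - p 1, p 0, p 1]
  map_add' p q := by
    ext i; fin_cases i <;> simp; ring
  map_smul' r p := by
    ext i; fin_cases i <;> simp; ring

lemma ψ_zero (p : E 2) : ψ p 0 = - p 0 - p 1 := rfl
lemma ψ_one (p : E 2) : ψ p 1 = p 0 := rfl
lemma ψ_two (p : E 2) : ψ p 2 = p 1 := rfl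

lemma normDet_ψ : ψ.normDet = Real.sqrt 3 := by
  have h := ψ.normDet_sq_eq_det_gram (EuclideanSpace.basisFun (Fin 2) ℝ)
  have h2 : ψ.normDet ^ 2 = 3 := by
    have h3 : (Matrix.gram ℝ (fun i => ψ ((EuclideanSpace.basisFun (Fin 2) ℝ) i))).det = 3 := by
      rw [Matrix.det_fin_two]
      simp only [Matrix.gram_apply, PiLp.inner_apply, Fin.sum_univ_three, ψ_zero, ψ_one, ψ_two]
      simp
      norm_num
    rw [h3] at h
    exact_mod_cast h
  rw [← h2, Real.sqrt_sq ψ.normDet_nonneg]

/-- The coordinate facets. -/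
noncomputable def face (c : ℝ) (i : Fin 3) : Set (E 3) := (fun p => cc c + incl i p) '' tri 0 1

/-- The slanted facet. -/
noncomputable def slant (c : ℝ) : Set (E 3) :=
  (fun x => (cc c + EuclideanSpace.single 0 1) + x) '' (ψ '' tri 0 1)

lemma measure_face (c : ℝ) (i : Fin 3) : μHE[2] (face c i) = ENNReal.ofReal (1 / 2) := by
  have h : Isometry (fun p => cc c + incl i p) := (isometry_add_left (cc c)).comp (incl_isometry i)
  unfold face
  rw [h.euclideanHausdorffMeasure_image, EuclideanSpace.euclideanHausdorffMeasure_eq_volume,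
    vol_tri]

lemma measure_slant (c : ℝ) : μHE[2] (slant c) = ENNReal.ofReal (Real.sqrt 3 / 2) := by
  unfold slant
  rw [(isometry_add_left (cc c + EuclideanSpace.single 0 1)).euclideanHausdorffMeasure_image]
  have h := ψ.euclideanHausdorffMeasure_image_eq_normDet_mul_volume (tri 0 1)
  rw [finrank_euclideanSpace_fin] at h
  rw [h, normDet_ψ, vol_tri, ← ENNReal.ofReal_mul (Real.sqrt_nonneg _)]
  congr 1
  ring

lemma isClosed_simp3 (c s : ℝ) : IsClosed (simp3 c s) := by
  unfold simp3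
  apply IsClosed.and
  · simp only [Set.ofPred_forall]
    exact isClosed_iInter fun i => isClosed_le continuous_const (by fun_prop)
  · exact isClosed_le (by fun_prop) continuous_const

lemma open_sub (c s : ℝ) :
    {x : E 3 | (∀ i, c < x i) ∧ x 0 + x 1 + x 2 < 3 * c + s} ⊆ interior (simp3 c s) := by
  apply interior_maximal
  · intro x hx
    exact ⟨fun i => (hx.1 i).le, hx.2.le⟩
  · apply IsOpen.and
    · simp only [Set.ofPred_forall]
      exact isOpen_iInter_of_finite fun i => isOpen_lt continuous_const (by fun_prop)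
    · exact isOpen_lt (by fun_prop) continuous_const

lemma frontier_subset (c : ℝ) :
    frontier (simp3 c 1) ⊆ (face c 0 ∪ face c 1 ∪ face c 2) ∪ slant c := by
  intro x hx
  rw [(isClosed_simp3 c 1).frontier_eq] at hx
  obtain ⟨⟨h1, h2⟩, h3⟩ := hx
  have hface : ∀ i, x i = c → x ∈ face c i := by
    intro i hi
    refine ⟨WithLp.toLp 2 (fun j => x (i.succAbove j) - c), ⟨?_, ?_, ?_⟩, ?_⟩
    · have := h1 (i.succAbove 0); simp; linarith
    · have := h1 (i.succAbove 1); simp; linarith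
    · have h := Fin.sum_univ_succAbove (fun j => x j) i
      rw [Fin.sum_univ_three, Fin.sum_univ_two, hi] at h
      simp
      linarith
    · ext j
      rcases Fin.eq_self_or_eq_succAbove i j with rfl | ⟨k, rfl⟩
      · simp [cc, incl_same, hi]
      · simp [cc, incl_succAbove]
  by_cases ha : x 0 = c
  · left; left; left; exact hface 0 ha
  by_cases hb : x 1 = c
  · left; left; right; exact hface 1 hb
  by_cases hd : x 2 = c
  · left; right; exact hface 2 hd
  right
  have h4 : x 0 + x 1 + x 2 = 3 * c + 1 := by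
    by_contra hne
    apply h3
    apply open_sub
    refine ⟨?_, lt_of_le_of_ne h2 hne⟩
    intro i
    fin_cases i
    · exact lt_of_le_of_ne (h1 0) (Ne.symm ha)
    · exact lt_of_le_of_ne (h1 1) (Ne.symm hb)
    · exact lt_of_le_of_ne (h1 2) (Ne.symm hd)
  refine ⟨ψ (pt (x 1 - c) (x 2 - c)), ⟨pt (x 1 - c) (x 2 - c), ⟨?_, ?_, ?_⟩, rfl⟩, ?_⟩
  · rw [pt_zero]; linarith [h1 1]
  · rw [pt_one]; linarith [h1 2]
  · rw [pt_zero, pt_one]; linarith [h1 0]
  · ext i
    fin_cases i
    · simp [cc, ψ_zero]; linarith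
    · simp [cc, ψ_one]
    · simp [cc, ψ_two]

lemma V2_le (c : ℝ) : V2 (simp3 c 1) ≤ (3 + Real.sqrt 3) / 4 := by
  unfold V2
  have h1 : μHE[2] (frontier (simp3 c 1)) ≤ ENNReal.ofReal ((3 + Real.sqrt 3) / 2) := by
    calc μHE[2] (frontier (simp3 c 1))
        ≤ μHE[2] ((face c 0 ∪ face c 1 ∪ face c 2) ∪ slant c) := measure_mono (frontier_subset c)
      _ ≤ μHE[2] (face c 0) + μHE[2] (face c 1) + μHE[2] (face c 2) + μHE[2] (slant c) := by
          refine (measure_union_le _ _).trans (add_le_add ?_ le_rfl)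
          refine (measure_union_le _ _).trans (add_le_add ?_ le_rfl)
          exact measure_union_le _ _
      _ = ENNReal.ofReal ((3 + Real.sqrt 3) / 2) := by
          rw [measure_face, measure_face, measure_face, measure_slant,
            ← ENNReal.ofReal_add (by norm_num) (by norm_num),
            ← ENNReal.ofReal_add (by norm_num) (by norm_num),
            ← ENNReal.ofReal_add (by norm_num) (by positivity)]
          congr 1
          ring
  have h2 := ENNReal.toReal_mono ENNReal.ofReal_ne_top h1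
  rw [ENNReal.toReal_ofReal (by positivity)] at h2
  linarith

lemma compact_simp3 (c s : ℝ) : IsCompact (simp3 c s) := by
  have h1 : IsCompact ((WithLp.toLp 2 : (Fin 3 → ℝ) → E 3) ''
      (Set.pi univ fun _ => Icc c (c + s))) :=
    (isCompact_univ_pi fun _ => isCompact_Icc).image (PiLp.continuous_toLp 2 _)
  refine h1.of_isClosed_subset (isClosed_simp3 c s) ?_
  intro x hx
  refine ⟨x.ofLp, ?_, rfl⟩
  intro i _
  refine ⟨hx.1 i, ?_⟩
  have h0 := hx.1 0
  have h1 := hx.1 1
  have h2 := hx.1 2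
  have h3 := hx.2
  fin_cases i
  · show x 0 ≤ c + s; linarith
  · show x 1 ≤ c + s; linarith
  · show x 2 ≤ c + s; linarith

lemma convex_simp3 (c s : ℝ) : Convex ℝ (simp3 c s) := by
  intro x hx y hy a b ha hb hab
  refine ⟨fun i => ?_, ?_⟩
  · have h1 := mul_le_mul_of_nonneg_left (hx.1 i) ha
    have h2 := mul_le_mul_of_nonneg_left (hy.1 i) hb
    simp only [PiLp.add_apply, PiLp.smul_apply, smul_eq_mul]
    have : c = a * c + b * c := by rw [← add_mul, hab, one_mul]
    linarith
  · have h1 := mul_le_mul_of_nonneg_left hx.2 ha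
    have h2 := mul_le_mul_of_nonneg_left hy.2 hb
    simp only [PiLp.add_apply, PiLp.smul_apply, smul_eq_mul]
    have : 3 * c + s = a * (3 * c + s) + b * (3 * c + s) := by rw [← add_mul, hab, one_mul]
    linarith

/-- **Q1 fails.**  There is a convex body `K ⊂ ℝ³`, even with `o` in its interior, with
`V_2(K)² < (1/16)(∑ ℓ_i²)² - (1/8)∑ ℓ_i⁴`. -/
theorem result : ∃ K : Set (E 3), Convex ℝ K ∧ IsCompact K ∧ (0 : E 3) ∈ interior K ∧
    V2 K ^ 2 < 1 / 16 * (∑ i, ell K i ^ 2) ^ 2 - 1 / 8 * ∑ i, ell K i ^ 4 := by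
  refine ⟨simp3 (-(1 / 40)) 1, convex_simp3 _ _, compact_simp3 _ _, ?_, ?_⟩
  · apply open_sub
    refine ⟨fun i => ?_, ?_⟩
    · simp
    · simp; norm_num
  · have hl : ∀ i, ell (simp3 (-(1 / 40)) 1) i = (2 + Real.sqrt 2) * (39 / 40) / 2 := by
      intro i
      rw [ell_simp3 _ _ (by norm_num) (by norm_num)]
      norm_num
    simp_rw [hl]
    simp only [Finset.sum_const, Finset.card_univ, Fintype.card_fin, nsmul_eq_mul]
    have h0 : 0 ≤ V2 (simp3 (-(1 / 40)) 1) := by unfold V2; positivity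
    have h1 := V2_le (-(1 / 40))
    have h3 : Real.sqrt 3 < 1.7321 := by
      rw [Real.sqrt_lt' (by norm_num)]; norm_num
    have h2 : 1.4142 < Real.sqrt 2 := by
      rw [Real.lt_sqrt (by norm_num)]; norm_num
    have h4 : V2 (simp3 (-(1 / 40)) 1) < 1.1831 := by linarith
    have h5 : V2 (simp3 (-(1 / 40)) 1) ^ 2 < 1.3998 := by nlinarith
    set l := (2 + Real.sqrt 2) * (39 / 40) / 2 with hldef
    have h6 : 1.6644 < l := by rw [hldef]; linarith
    have h7 : 2.7702 < l ^ 2 := by nlinarith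
    have h8 : 7.674 < l ^ 4 := by
      have : l ^ 4 = l ^ 2 * l ^ 2 := by ring
      rw [this]; nlinarith
    have h9 : 1 / 16 * (((3 : ℕ) : ℝ) * l ^ 2) ^ 2 - 1 / 8 * (((3 : ℕ) : ℝ) * l ^ 4)
        = 3 / 16 * l ^ 4 := by push_cast; ring
    rw [h9]
    linarith

end Pool.Agent.Results.MP_6df474_gt.Tetrahedron
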